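import Pool.Agent.H.MP_722786_an.B

open MeasureTheory
open scoped NNReal

namespace Pool.Agent.Results.MP_722786_an.Bound

open Pool.Agent.H.MP_722786_an

theorem result : ∃ K : ℝ, ∀ (m n : ℕ), 1 ≤ m → 1 ≤ n → ∀ (C₁ : Set (Fin m → ℝ)) (C₂ : Set (Fin n → ℝ)),
    IsCone C₁ → IsCone C₂ → ∀ d₀ : Idx m n → ℝ, fro d₀ ≤ 1 → ∀ σ : ℝ≥0, 0 < σ → σ ≤ 1 →
      Measurable (condNum C₁ C₂) ∧
      ∫⁻ d, logPos (condNum C₁ C₂ d) ∂pert d₀ σ ≤ ENNReal.ofReal (K * (1 + Real.log (m * n / σ))) :=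
  ⟨6000, fun _ _ m0 n0 _ _ h1 h2 d₀ hd σ σ0 σ1 => ⟨cond_meas, final h1 h2 m0 n0 d₀ hd σ σ0 σ1⟩⟩

end Pool.Agent.Results.MP_722786_an.Bound
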